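import Pool.Agent.Helper94.Tot.Goals

/-!
# Packet Var of MP_05f971_nt: the variance bound
-/

set_option autoImplicit false

open Finset

namespace Pool.Agent.Helper5.Tot

open Pool.Agent.Helper94.Tot

/-! ## Counting -/

theorem card_modEq (M q v : ℕ) (hq : 1 ≤ q) :
    (((Ico M (2 * M)).filter (fun m => m ≡ v [MOD q])).card : ℝ) ≤ M / q + 1 := by
  have hq' : (0 : ℚ) < q := by exact_mod_cast hq
  have h1 := Nat.Ico_filter_modEq_card M (2 * M) hq v
  have h2 : (((Ico M (2 * M)).filter (fun m => m ≡ v [MOD q])).card : ℚ) ≤ M / q + 1 := by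
    have h3 : ((((Ico M (2 * M)).filter (fun m => m ≡ v [MOD q])).card : ℤ) : ℚ) ≤ M / q + 1 := by
      rw [h1]
      have h4 : ((⌈(((2 * M : ℕ) : ℚ) - v) / q⌉ - ⌈((M : ℚ) - v) / q⌉ : ℤ) : ℚ) ≤ M / q + 1 := by
        have h5 := Int.ceil_lt_add_one ((((2 * M : ℕ) : ℚ) - v) / q)
        have h6 := Int.le_ceil (((M : ℚ) - v) / q)
        push_cast at h5 ⊢
        have h7 : ((2 * (M : ℚ)) - v) / q = ((M : ℚ) - v) / q + M / q := by
          field_simp
          ring
        rw [h7] at h5 ⊢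
        linarith
      have h8 : (0 : ℚ) ≤ M / q + 1 := by positivity
      push_cast at h4 ⊢
      exact max_le h4 h8
    exact_mod_cast h3
  have h9 : ((((Ico M (2 * M)).filter (fun m => m ≡ v [MOD q])).card : ℚ) : ℝ) ≤ ((M / q + 1 : ℚ) : ℝ) := by
    exact_mod_cast h2
  push_cast at h9
  exact h9

theorem pairs (M q : ℕ) (hq : 1 ≤ q) :
    ∑ m ∈ Ico M (2 * M), ∑ m' ∈ Ico M (2 * M), (if m ≡ m' [MOD q] then (1 : ℝ) else 0) ≤
      M * (M / q + 1) := by
  have h1 : ∀ m ∈ Ico M (2 * M), ∑ m' ∈ Ico M (2 * M), (if m ≡ m' [MOD q] then (1 : ℝ) else 0) ≤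
      M / q + 1 := by
    intro m _
    rw [← Finset.sum_filter, Finset.sum_const, nsmul_eq_mul, mul_one]
    have : (Ico M (2 * M)).filter (fun m' => m ≡ m' [MOD q]) =
        (Ico M (2 * M)).filter (fun m' => m' ≡ m [MOD q]) := by
      apply Finset.filter_congr
      intro x _
      exact ⟨fun h => h.symm, fun h => h.symm⟩
    rw [this]
    exact card_modEq M q m hq
  refine (Finset.sum_le_sum h1).trans ?_
  rw [Finset.sum_const, nsmul_eq_mul, Nat.card_Ico]
  have : 2 * M - M = M := by omega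
  rw [this]

/-! ## Sums over the divisors -/

theorem harm (Y : ℕ) : ∑ f ∈ Icc 1 Y, (1 : ℝ) / f ≤ 1 + Real.log Y := by
  have h1 := harmonic_le_one_add_log Y
  have h2 : ((harmonic Y : ℚ) : ℝ) = ∑ f ∈ Icc 1 Y, (1 : ℝ) / f := by
    rw [harmonic_eq_sum_Icc]
    push_cast
    exact Finset.sum_congr rfl fun i _ => by rw [one_div]
  rw [← h2]
  exact h1

variable {D : Finset ℕ} {Y u : ℕ}

theorem sum_dvd (hD : ∀ d ∈ D, 1 ≤ d ∧ d ≤ Y) (g : ℕ) (hg : 1 ≤ g) :
    ∑ d ∈ D, (if g ∣ d then (1 : ℝ) / d else 0) ≤ (1 + Real.log Y) / g := by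
  rw [← Finset.sum_filter]
  have hg0 : (0 : ℝ) < g := by exact_mod_cast hg
  have h1 : ∑ d ∈ D.filter (fun d => g ∣ d), (1 : ℝ) / d =
      ∑ f ∈ (D.filter (fun d => g ∣ d)).image (fun d => d / g), (1 : ℝ) / (g * f) := by
    rw [Finset.sum_image]
    · apply Finset.sum_congr rfl
      intro d hd
      rw [Finset.mem_filter] at hd
      have : ((d : ℕ) : ℝ) = g * ((d / g : ℕ) : ℝ) := by
        exact_mod_cast (Nat.mul_div_cancel' hd.2).symm
      rw [← this]
    · intro a ha b hb hab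
      simp only [Finset.coe_filter, Set.mem_ofPred_eq] at ha hb
      have h2 := Nat.mul_div_cancel' ha.2
      have h3 := Nat.mul_div_cancel' hb.2
      simp only at hab
      rw [← h2, ← h3, hab]
  rw [h1]
  have h2 : (D.filter (fun d => g ∣ d)).image (fun d => d / g) ⊆ Icc 1 Y := by
    intro f hf
    rw [Finset.mem_image] at hf
    obtain ⟨d, hd, rfl⟩ := hf
    rw [Finset.mem_filter] at hd
    rw [Finset.mem_Icc]
    have h3 := hD d hd.1
    refine ⟨?_, (Nat.div_le_self _ _).trans h3.2⟩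
    exact Nat.div_pos (Nat.le_of_dvd h3.1 hd.2) hg
  refine (Finset.sum_le_sum_of_subset_of_nonneg h2 fun i _ _ => by positivity).trans ?_
  have h3 : ∑ f ∈ Icc 1 Y, (1 : ℝ) / (g * f) = (∑ f ∈ Icc 1 Y, (1 : ℝ) / f) / g := by
    rw [Finset.sum_div]
    apply Finset.sum_congr rfl
    intro f _
    rw [div_div, mul_comm]
  rw [h3]
  exact div_le_div_of_nonneg_right (harm Y) hg0.le

theorem regroup (hD : ∀ d ∈ D, 1 ≤ d ∧ d ≤ Y)
    (hu : ∀ d ∈ D, ∀ p, p.Prime → p ∣ d → u < p) (W : ℕ → ℝ) (hW : ∀ g, 0 ≤ W g) :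
    ∑ d ∈ D, ∑ d' ∈ D, (if 1 < Nat.gcd d d' then W (Nat.gcd d d') / (d * d') else 0) ≤
      ∑ g ∈ Ioc u Y, W g * ((1 + Real.log Y) / g) ^ 2 := by
  have hlog : 0 ≤ Real.log Y := Real.log_natCast_nonneg Y
  have h1 : ∀ d ∈ D, ∀ d' ∈ D,
      (if 1 < Nat.gcd d d' then W (Nat.gcd d d') / (d * d') else 0) ≤
      ∑ g ∈ Ioc u Y, W g * ((if g ∣ d then (1 : ℝ) / d else 0) *
        (if g ∣ d' then (1 : ℝ) / d' else 0)) := by
    intro d hd d' hd'
    have hnn : ∀ g ∈ Ioc u Y, 0 ≤ W g * ((if g ∣ d then (1 : ℝ) / d else 0) *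
        (if g ∣ d' then (1 : ℝ) / d' else 0)) := by
      intro g _
      apply mul_nonneg (hW g)
      apply mul_nonneg <;> split_ifs <;> positivity
    split_ifs with h
    · have hmem : Nat.gcd d d' ∈ Ioc u Y := by
        rw [Finset.mem_Ioc]
        obtain ⟨p, hp, hpd⟩ := Nat.exists_prime_and_dvd (ne_of_gt h)
        refine ⟨lt_of_lt_of_le (hu d hd p hp (hpd.trans (Nat.gcd_dvd_left _ _)))
          (Nat.le_of_dvd (by omega) hpd), ?_⟩
        exact (Nat.le_of_dvd (hD d hd).1 (Nat.gcd_dvd_left _ _)).trans (hD d hd).2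
      refine le_trans (le_of_eq ?_) (Finset.single_le_sum hnn hmem)
      rw [if_pos (Nat.gcd_dvd_left _ _), if_pos (Nat.gcd_dvd_right _ _)]
      rw [one_div, one_div, ← mul_inv, div_eq_mul_inv]
    · exact Finset.sum_nonneg hnn
  refine (Finset.sum_le_sum fun d hd => Finset.sum_le_sum fun d' hd' => h1 d hd d' hd').trans ?_
  have h2 : ∑ d ∈ D, ∑ d' ∈ D, ∑ g ∈ Ioc u Y, W g * ((if g ∣ d then (1 : ℝ) / d else 0) *
        (if g ∣ d' then (1 : ℝ) / d' else 0)) =
      ∑ g ∈ Ioc u Y, W g * (∑ d ∈ D, (if g ∣ d then (1 : ℝ) / d else 0)) ^ 2 := by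
    have : ∀ d ∈ D, ∑ d' ∈ D, ∑ g ∈ Ioc u Y, W g * ((if g ∣ d then (1 : ℝ) / d else 0) *
        (if g ∣ d' then (1 : ℝ) / d' else 0)) = ∑ g ∈ Ioc u Y, ∑ d' ∈ D,
        W g * ((if g ∣ d then (1 : ℝ) / d else 0) * (if g ∣ d' then (1 : ℝ) / d' else 0)) :=
      fun d _ => Finset.sum_comm
    rw [Finset.sum_congr rfl this, Finset.sum_comm]
    apply Finset.sum_congr rfl
    intro g _
    rw [sq, Finset.sum_mul_sum, Finset.mul_sum]
    apply Finset.sum_congr rfl
    intro d _
    rw [Finset.mul_sum]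
  rw [h2]
  apply Finset.sum_le_sum
  intro g hg
  rw [Finset.mem_Ioc] at hg
  apply mul_le_mul_of_nonneg_left _ (hW g)
  apply pow_le_pow_left₀
  · apply Finset.sum_nonneg
    intro d _
    split_ifs <;> positivity
  · exact sum_dvd hD g (by omega)

theorem sum_inv_sq (u Y : ℕ) (hu : 1 ≤ u) : ∑ g ∈ Ioc u Y, (1 : ℝ) / (g : ℝ) ^ 2 ≤ 1 / u := by
  by_cases h : u ≤ Y
  · have h1 := sum_Ioc_inv_sq_le_sub (α := ℝ) (by omega : u ≠ 0) h
    simp only [one_div]
    have : (0 : ℝ) ≤ (Y : ℝ)⁻¹ := by positivity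
    linarith
  · rw [Finset.Ioc_eq_empty (by omega), Finset.sum_empty]
    positivity

theorem sum_inv (u Y : ℕ) : ∑ g ∈ Ioc u Y, (1 : ℝ) / (g : ℝ) ≤ 1 + Real.log Y := by
  refine le_trans ?_ (harm Y)
  apply Finset.sum_le_sum_of_subset_of_nonneg
  · intro g hg
    rw [Finset.mem_Ioc] at hg
    rw [Finset.mem_Icc]
    omega
  · intro i _ _
    positivity

/-! ## The covariances -/

/-- the number of `k` with the four divisibilities -/
noncomputable def cnt (e b K m m' d d' : ℕ) : ℝ :=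
  (((Icc 1 K).filter (fun k => (e ∣ b * m * k + 1 ∧ e ∣ b * m' * k + 1) ∧
      (d ∣ b * m * k + 1 ∧ d' ∣ b * m' * k + 1))).card : ℝ)

/-- the indicator of coprimality -/
noncomputable def xx (b m d : ℕ) : ℝ := if Nat.Coprime d (b * m) then 1 else 0

/-- the covariance -/
noncomputable def QQ (e b K m m' d d' : ℕ) : ℝ :=
  cnt e b K m m' d d' - xx b m' d' / d' * cnt e b K m m' d 1 - xx b m d / d * cnt e b K m m' 1 d' +
    xx b m d * xx b m' d' / (d * d') * cnt e b K m m' 1 1

/-- the bound -/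
noncomputable def BBd (e K m m' d d' : ℕ) : ℝ :=
  (if m ≡ m' [MOD e] then 4 else 0) +
  (if m ≡ m' [MOD e] then 1 else 0) *
    (if 1 < Nat.gcd d d' then (K : ℝ) / (e * d * d') else 0) +
  (if m ≡ m' [MOD e] then 1 else 0) *
    (if m ≡ m' [MOD (Nat.gcd d d')] then 1 else 0) *
    (if 1 < Nat.gcd d d' then (K : ℝ) * (Nat.gcd d d' : ℝ) / (e * d * d') else 0)

theorem BBd_nonneg (e K m m' d d' : ℕ) : 0 ≤ BBd e K m m' d d' := by
  unfold BBd
  have h1 : (0 : ℝ) ≤ (if m ≡ m' [MOD e] then 4 else 0) := by split_ifs <;> norm_num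
  have h2 : (0 : ℝ) ≤ (if m ≡ m' [MOD e] then 1 else 0) := by split_ifs <;> norm_num
  have h3 : (0 : ℝ) ≤ (if m ≡ m' [MOD (Nat.gcd d d')] then 1 else 0) := by
    split_ifs <;> norm_num
  have h4 : (0 : ℝ) ≤ (if 1 < Nat.gcd d d' then (K : ℝ) / (e * d * d') else 0) := by
    split_ifs <;> positivity
  have h5 : (0 : ℝ) ≤ (if 1 < Nat.gcd d d' then (K : ℝ) * (Nat.gcd d d' : ℝ) / (e * d * d')
      else 0) := by
    split_ifs <;> positivity
  positivity

theorem Q_le (hCnt : StmtCnt) {e b K m m' d d' : ℕ} (he : 1 ≤ e) (hb : 1 ≤ b) (hK : 1 ≤ K)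
    (hm : 1 ≤ m) (hm' : 1 ≤ m') (hd : Squarefree d) (hd' : Squarefree d')
    (hde : Nat.Coprime d e) (hde' : Nat.Coprime d' e) :
    |QQ e b K m m' d d'| ≤ BBd e K m m' d d' := by
  have c1 := hCnt e b K m m' d d' he hb hK hm hm' hd hd' hde hde'
  have c2 := hCnt e b K m m' d 1 he hb hK hm hm' hd squarefree_one hde (Nat.coprime_one_left e)
  have c3 := hCnt e b K m m' 1 d' he hb hK hm hm' squarefree_one hd' (Nat.coprime_one_left e) hde'
  have c4 := hCnt e b K m m' 1 1 he hb hK hm hm' squarefree_one squarefree_one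
    (Nat.coprime_one_left e) (Nat.coprime_one_left e)
  have hd0 : (1 : ℝ) ≤ d := by exact_mod_cast Nat.one_le_iff_ne_zero.2 hd.ne_zero
  have hd0' : (1 : ℝ) ≤ d' := by exact_mod_cast Nat.one_le_iff_ne_zero.2 hd'.ne_zero
  have he0 : (1 : ℝ) ≤ e := by exact_mod_cast he
  by_cases h0 : Nat.Coprime e (b * m) ∧ m ≡ m' [MOD e]
  · by_cases h1 : Nat.Coprime d (b * m)
    · by_cases h2 : Nat.Coprime d' (b * m')
      · -- the main case
        have e2 : |cnt e b K m m' d 1 - K / (e * d)| ≤ 1 := by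
          have := c2.2 ⟨h0.1, h0.2, h1, Nat.coprime_one_left _, by
            rw [Nat.gcd_one_right]; exact Nat.modEq_one⟩
          simpa [cnt] using this
        have e3 : |cnt e b K m m' 1 d' - K / (e * d')| ≤ 1 := by
          have := c3.2 ⟨h0.1, h0.2, Nat.coprime_one_left _, h2, by
            rw [Nat.gcd_one_left]; exact Nat.modEq_one⟩
          simpa [cnt] using this
        have e4 : |cnt e b K m m' 1 1 - K / e| ≤ 1 := by
          have := c4.2 ⟨h0.1, h0.2, Nat.coprime_one_left _, Nat.coprime_one_left _, by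
            rw [Nat.gcd_one_left]; exact Nat.modEq_one⟩
          simpa [cnt] using this
        have hQ : QQ e b K m m' d d' = (cnt e b K m m' d d' - K / (e * d * d')) -
            (cnt e b K m m' d 1 - K / (e * d)) / d' - (cnt e b K m m' 1 d' - K / (e * d')) / d +
            (cnt e b K m m' 1 1 - K / e) / (d * d') := by
          unfold QQ xx
          rw [if_pos h1, if_pos h2]
          field_simp
          ring
        have f2 : |(cnt e b K m m' d 1 - K / (e * d)) / d'| ≤ 1 := by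
          rw [abs_div, abs_of_pos (by linarith : (0 : ℝ) < d')]
          rw [div_le_one (by linarith)]
          linarith
        have f3 : |(cnt e b K m m' 1 d' - K / (e * d')) / d| ≤ 1 := by
          rw [abs_div, abs_of_pos (by linarith : (0 : ℝ) < d)]
          rw [div_le_one (by linarith)]
          linarith
        have f4 : |(cnt e b K m m' 1 1 - K / e) / (d * d')| ≤ 1 := by
          have hdd : (1 : ℝ) ≤ d * d' := by nlinarith
          rw [abs_div, abs_of_pos (by linarith : (0 : ℝ) < d * d')]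
          rw [div_le_one (by linarith)]
          linarith
        have f : |QQ e b K m m' d d'| ≤ |cnt e b K m m' d d' - K / (e * d * d')| + 3 := by
          rw [hQ]
          rw [abs_le] at f2 f3 f4 ⊢
          have g1 := le_abs_self (cnt e b K m m' d d' - K / (e * d * d'))
          have g2 := neg_abs_le (cnt e b K m m' d d' - K / (e * d * d'))
          constructor <;> linarith [f2.1, f2.2, f3.1, f3.2, f4.1, f4.2]
        refine f.trans ?_
        have hX : (0 : ℝ) ≤ K / (e * d * d') := by positivity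
        by_cases h3 : m ≡ m' [MOD (Nat.gcd d d')]
        · have e1 : |cnt e b K m m' d d' - K * (Nat.gcd d d' : ℝ) / (e * d * d')| ≤ 1 := by
            have := c1.2 ⟨h0.1, h0.2, h1, h2, h3⟩
            simpa [cnt] using this
          unfold BBd
          rw [if_pos h0.2, if_pos h0.2, if_pos h3]
          by_cases h4 : 1 < Nat.gcd d d'
          · rw [if_pos h4, if_pos h4]
            have hG : (0 : ℝ) ≤ K * (Nat.gcd d d' : ℝ) / (e * d * d') := by positivity
            have : |cnt e b K m m' d d' - K / (e * d * d')| ≤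
                1 + K / (e * d * d') + K * (Nat.gcd d d' : ℝ) / (e * d * d') := by
              rw [abs_le] at e1 ⊢
              constructor <;> linarith [e1.1, e1.2]
            linarith
          · have hg1 : Nat.gcd d d' = 1 := by
              have : 0 < Nat.gcd d d' := Nat.gcd_pos_of_pos_left _ (Nat.pos_of_ne_zero hd.ne_zero)
              omega
            rw [if_neg h4, if_neg h4]
            rw [hg1] at e1
            simp only [Nat.cast_one, mul_one] at e1
            linarith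
        · have e1 : cnt e b K m m' d d' = 0 := by
            have := c1.1 (fun hh => h3 hh.2.2.2.2)
            unfold cnt
            exact_mod_cast this
          have h4 : 1 < Nat.gcd d d' := by
            by_contra hcon
            have : 0 < Nat.gcd d d' := Nat.gcd_pos_of_pos_left _ (Nat.pos_of_ne_zero hd.ne_zero)
            have hg1 : Nat.gcd d d' = 1 := by omega
            rw [hg1] at h3
            exact h3 Nat.modEq_one
          unfold BBd
          rw [if_pos h0.2, if_pos h0.2, if_neg h3, if_pos h4, if_pos h4, e1, zero_sub, abs_neg,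
            abs_of_nonneg hX]
          linarith
      · have e1 : cnt e b K m m' d d' = 0 := by
          have := c1.1 (fun hh => h2 hh.2.2.2.1)
          unfold cnt
          exact_mod_cast this
        have e3 : cnt e b K m m' 1 d' = 0 := by
          have := c3.1 (fun hh => h2 hh.2.2.2.1)
          unfold cnt
          exact_mod_cast this
        have : QQ e b K m m' d d' = 0 := by
          unfold QQ
          rw [e1, e3]
          unfold xx
          rw [if_neg h2]
          simp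
        rw [this, abs_zero]
        exact BBd_nonneg _ _ _ _ _ _
    · have e1 : cnt e b K m m' d d' = 0 := by
        have := c1.1 (fun hh => h1 hh.2.2.1)
        unfold cnt
        exact_mod_cast this
      have e2 : cnt e b K m m' d 1 = 0 := by
        have := c2.1 (fun hh => h1 hh.2.2.1)
        unfold cnt
        exact_mod_cast this
      have : QQ e b K m m' d d' = 0 := by
        unfold QQ
        rw [e1, e2]
        unfold xx
        rw [if_neg h1]
        simp
      rw [this, abs_zero]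
      exact BBd_nonneg _ _ _ _ _ _
  · have e1 : cnt e b K m m' d d' = 0 := by
      have := c1.1 (fun hh => h0 ⟨hh.1, hh.2.1⟩)
      unfold cnt
      exact_mod_cast this
    have e2 : cnt e b K m m' d 1 = 0 := by
      have := c2.1 (fun hh => h0 ⟨hh.1, hh.2.1⟩)
      unfold cnt
      exact_mod_cast this
    have e3 : cnt e b K m m' 1 d' = 0 := by
      have := c3.1 (fun hh => h0 ⟨hh.1, hh.2.1⟩)
      unfold cnt
      exact_mod_cast this
    have e4 : cnt e b K m m' 1 1 = 0 := by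
      have := c4.1 (fun hh => h0 ⟨hh.1, hh.2.1⟩)
      unfold cnt
      exact_mod_cast this
    have : QQ e b K m m' d d' = 0 := by
      unfold QQ
      rw [e1, e2, e3, e4]
      ring
    rw [this, abs_zero]
    exact BBd_nonneg _ _ _ _ _ _

/-- one summand -/
noncomputable def FF (e b m d k : ℕ) : ℝ :=
  (if e ∣ b * m * k + 1 then 1 else 0) * ((ArithmeticFunction.moebius d : ℝ) *
    ((if d ∣ b * m * k + 1 then 1 else 0) - xx b m d / d))

theorem inner_eq (D : Finset ℕ) (e b k : ℕ) (I : Finset ℕ) :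
    ∑ m ∈ I.filter (fun m => e ∣ b * m * k + 1), (SS D (b * m * k + 1) - sg D (b * m)) =
      ∑ m ∈ I, ∑ d ∈ D, FF e b m d k := by
  rw [Finset.sum_filter]
  apply Finset.sum_congr rfl
  intro m _
  unfold FF SS sg xx
  rw [Finset.sum_filter, Finset.sum_filter, ← Finset.sum_sub_distrib, ← Finset.mul_sum]
  split_ifs with h
  · rw [one_mul]
    apply Finset.sum_congr rfl
    intro d _
    split_ifs <;> ring
  · rw [zero_mul]

theorem cov_eq (e b K m m' d d' : ℕ) :
    ∑ k ∈ Icc 1 K, FF e b m d k * FF e b m' d' k =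
      (ArithmeticFunction.moebius d : ℝ) * (ArithmeticFunction.moebius d' : ℝ) *
        QQ e b K m m' d d' := by
  have hc : ∀ a a' : ℕ, cnt e b K m m' a a' = ∑ k ∈ Icc 1 K,
      (if e ∣ b * m * k + 1 then (1 : ℝ) else 0) * (if e ∣ b * m' * k + 1 then 1 else 0) *
      ((if a ∣ b * m * k + 1 then 1 else 0) * (if a' ∣ b * m' * k + 1 then 1 else 0)) := by
    intro a a'
    unfold cnt
    rw [Finset.card_filter]
    push_cast
    apply Finset.sum_congr rfl
    intro k _
    by_cases h1 : e ∣ b * m * k + 1 <;> by_cases h2 : e ∣ b * m' * k + 1 <;>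
      by_cases h3 : a ∣ b * m * k + 1 <;> by_cases h4 : a' ∣ b * m' * k + 1 <;>
      simp [h1, h2, h3, h4]
  unfold QQ
  rw [hc, hc, hc, hc]
  simp only [Finset.mul_sum, ← Finset.sum_sub_distrib, ← Finset.sum_add_distrib]
  apply Finset.sum_congr rfl
  intro k _
  unfold FF
  simp only [one_dvd, if_true]
  ring

theorem moebius_abs_le (d : ℕ) : |(ArithmeticFunction.moebius d : ℝ)| ≤ 1 := by
  have := ArithmeticFunction.abs_moebius_le_one (n := d)
  exact_mod_cast this

theorem pf_Var (hCnt : StmtCnt) : StmtVar := by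
  intro D Y u hY hu hD e b he hep hb K M hK hM
  have hM1 : 1 ≤ M := he.trans hM
  have hD1 : ∀ d ∈ D, 1 ≤ d ∧ d ≤ Y := fun d hd =>
    ⟨Nat.one_le_iff_ne_zero.2 (hD d hd).1.ne_zero, (hD d hd).2.1⟩
  have hDu : ∀ d ∈ D, ∀ p, p.Prime → p ∣ d → u < p := fun d hd => (hD d hd).2.2
  have hco : ∀ d ∈ D, Nat.Coprime d e := by
    intro d hd
    by_contra hcon
    obtain ⟨p, hp, h1, h2⟩ := Nat.Prime.not_coprime_iff_dvd.1 hcon
    have := hDu d hd p hp h1
    have := hep p hp h2
    omega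
  set I := Ico M (2 * M) with hI
  have hI1 : ∀ m ∈ I, 1 ≤ m := by
    intro m hm
    rw [hI, Finset.mem_Ico] at hm
    omega
  set h : ℝ := 1 + Real.log Y with hh
  have hh1 : 1 ≤ h := by
    have := Real.log_natCast_nonneg Y
    linarith
  have hMr : (1 : ℝ) ≤ M := by exact_mod_cast hM1
  have her : (1 : ℝ) ≤ e := by exact_mod_cast he
  have hur : (1 : ℝ) ≤ u := by exact_mod_cast hu
  have hYr : (1 : ℝ) ≤ Y := by exact_mod_cast hY
  have hKr : (1 : ℝ) ≤ K := by exact_mod_cast hK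
  have heM : (e : ℝ) ≤ M := by exact_mod_cast hM
  -- step 1
  have s1 : ∑ k ∈ Icc 1 K, (∑ m ∈ I.filter (fun m => e ∣ b * m * k + 1),
      (SS D (b * m * k + 1) - sg D (b * m))) ^ 2 ≤
      ∑ m ∈ I, ∑ m' ∈ I, ∑ d ∈ D, ∑ d' ∈ D, BBd e K m m' d d' := by
    have a1 : ∑ k ∈ Icc 1 K, (∑ m ∈ I.filter (fun m => e ∣ b * m * k + 1),
        (SS D (b * m * k + 1) - sg D (b * m))) ^ 2 =
        ∑ m ∈ I, ∑ m' ∈ I, ∑ d ∈ D, ∑ d' ∈ D,
          ∑ k ∈ Icc 1 K, FF e b m d k * FF e b m' d' k := by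
      have a2 : ∀ k ∈ Icc 1 K, (∑ m ∈ I.filter (fun m => e ∣ b * m * k + 1),
        (SS D (b * m * k + 1) - sg D (b * m))) ^ 2 =
        ∑ m ∈ I, ∑ m' ∈ I, ∑ d ∈ D, ∑ d' ∈ D, FF e b m d k * FF e b m' d' k := by
        intro k _
        rw [inner_eq, sq, Finset.sum_mul_sum]
        apply Finset.sum_congr rfl
        intro m _
        apply Finset.sum_congr rfl
        intro m' _
        rw [Finset.sum_mul_sum]
      rw [Finset.sum_congr rfl a2, Finset.sum_comm]
      apply Finset.sum_congr rfl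
      intro m _
      rw [Finset.sum_comm]
      apply Finset.sum_congr rfl
      intro m' _
      rw [Finset.sum_comm]
      apply Finset.sum_congr rfl
      intro d _
      rw [Finset.sum_comm]
    rw [a1]
    apply Finset.sum_le_sum
    intro m hm
    apply Finset.sum_le_sum
    intro m' hm'
    apply Finset.sum_le_sum
    intro d hd
    apply Finset.sum_le_sum
    intro d' hd'
    rw [cov_eq]
    have q1 := Q_le hCnt he hb hK (hI1 m hm) (hI1 m' hm') (hD d hd).1 (hD d' hd').1 (hco d hd)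
      (hco d' hd')
    refine (le_abs_self _).trans ?_
    rw [abs_mul, abs_mul]
    have q2 := moebius_abs_le d
    have q3 := moebius_abs_le d'
    have q4 : |(ArithmeticFunction.moebius d : ℝ)| * |(ArithmeticFunction.moebius d' : ℝ)| ≤ 1 :=
      mul_le_one₀ q2 (abs_nonneg _) q3
    calc _ ≤ 1 * |QQ e b K m m' d d'| := mul_le_mul_of_nonneg_right q4 (abs_nonneg _)
      _ ≤ _ := by rw [one_mul]; exact q1
  refine s1.trans ?_
  -- the number of pairs
  have np : ∀ q : ℕ, 1 ≤ q → ∑ m ∈ I, ∑ m' ∈ I, (if m ≡ m' [MOD q] then (1 : ℝ) else 0) ≤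
      M * (M / q + 1) := fun q hq => pairs M q hq
  have npe : ∑ m ∈ I, ∑ m' ∈ I, (if m ≡ m' [MOD e] then (1 : ℝ) else 0) ≤ 2 * M ^ 2 / e := by
    refine (np e he).trans ?_
    have : (1 : ℝ) ≤ M / e := by rw [le_div_iff₀ (by linarith)]; linarith
    calc (M : ℝ) * (M / e + 1) ≤ M * (M / e + M / e) := by
          apply mul_le_mul_of_nonneg_left _ (by linarith); linarith
      _ = 2 * M ^ 2 / e := by ring
  -- split
  have sp : ∑ m ∈ I, ∑ m' ∈ I, ∑ d ∈ D, ∑ d' ∈ D, BBd e K m m' d d' =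
      4 * (∑ m ∈ I, ∑ m' ∈ I, (if m ≡ m' [MOD e] then (1 : ℝ) else 0)) * (D.card : ℝ) ^ 2 +
      (∑ m ∈ I, ∑ m' ∈ I, (if m ≡ m' [MOD e] then (1 : ℝ) else 0)) *
        (∑ d ∈ D, ∑ d' ∈ D, (if 1 < Nat.gcd d d' then (K : ℝ) / (e * d * d') else 0)) +
      ∑ d ∈ D, ∑ d' ∈ D, (∑ m ∈ I, ∑ m' ∈ I, (if m ≡ m' [MOD e] then (1 : ℝ) else 0) *
        (if m ≡ m' [MOD (Nat.gcd d d')] then 1 else 0)) *
        (if 1 < Nat.gcd d d' then (K : ℝ) * (Nat.gcd d d' : ℝ) / (e * d * d') else 0) := by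
    have b3 : ∑ d ∈ D, ∑ d' ∈ D, (∑ m ∈ I, ∑ m' ∈ I, (if m ≡ m' [MOD e] then (1 : ℝ) else 0) *
        (if m ≡ m' [MOD (Nat.gcd d d')] then 1 else 0)) *
        (if 1 < Nat.gcd d d' then (K : ℝ) * (Nat.gcd d d' : ℝ) / (e * d * d') else 0) =
        ∑ m ∈ I, ∑ m' ∈ I, ∑ d ∈ D, ∑ d' ∈ D, (if m ≡ m' [MOD e] then (1 : ℝ) else 0) *
        (if m ≡ m' [MOD (Nat.gcd d d')] then 1 else 0) *
        (if 1 < Nat.gcd d d' then (K : ℝ) * (Nat.gcd d d' : ℝ) / (e * d * d') else 0) := by
      simp only [Finset.sum_mul]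
      have t1 : ∀ d ∈ D, ∑ d' ∈ D, ∑ m ∈ I, ∑ m' ∈ I, (if m ≡ m' [MOD e] then (1 : ℝ) else 0) *
          (if m ≡ m' [MOD (Nat.gcd d d')] then 1 else 0) *
          (if 1 < Nat.gcd d d' then (K : ℝ) * (Nat.gcd d d' : ℝ) / (e * d * d') else 0) =
          ∑ m ∈ I, ∑ m' ∈ I, ∑ d' ∈ D, (if m ≡ m' [MOD e] then (1 : ℝ) else 0) *
          (if m ≡ m' [MOD (Nat.gcd d d')] then 1 else 0) *
          (if 1 < Nat.gcd d d' then (K : ℝ) * (Nat.gcd d d' : ℝ) / (e * d * d') else 0) := by
        intro d _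
        rw [Finset.sum_comm]
        apply Finset.sum_congr rfl
        intro m _
        rw [Finset.sum_comm]
      rw [Finset.sum_congr rfl t1, Finset.sum_comm]
      apply Finset.sum_congr rfl
      intro m _
      rw [Finset.sum_comm]
    rw [b3]
    have b1 : 4 * (∑ m ∈ I, ∑ m' ∈ I, (if m ≡ m' [MOD e] then (1 : ℝ) else 0)) *
        (D.card : ℝ) ^ 2 = ∑ m ∈ I, ∑ m' ∈ I, ∑ d ∈ D, ∑ d' ∈ D,
          (if m ≡ m' [MOD e] then (4 : ℝ) else 0) := by
      simp only [Finset.sum_const, nsmul_eq_mul]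
      rw [Finset.mul_sum, Finset.sum_mul]
      apply Finset.sum_congr rfl
      intro m _
      rw [Finset.mul_sum, Finset.sum_mul]
      apply Finset.sum_congr rfl
      intro m' _
      split_ifs <;> ring
    have b2 : (∑ m ∈ I, ∑ m' ∈ I, (if m ≡ m' [MOD e] then (1 : ℝ) else 0)) *
        (∑ d ∈ D, ∑ d' ∈ D, (if 1 < Nat.gcd d d' then (K : ℝ) / (e * d * d') else 0)) =
        ∑ m ∈ I, ∑ m' ∈ I, ∑ d ∈ D, ∑ d' ∈ D, (if m ≡ m' [MOD e] then (1 : ℝ) else 0) *
        (if 1 < Nat.gcd d d' then (K : ℝ) / (e * d * d') else 0) := by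
      rw [Finset.sum_mul]
      apply Finset.sum_congr rfl
      intro m _
      rw [Finset.sum_mul]
      apply Finset.sum_congr rfl
      intro m' _
      rw [Finset.mul_sum]
      apply Finset.sum_congr rfl
      intro d _
      rw [Finset.mul_sum]
    rw [b1, b2]
    simp only [← Finset.sum_add_distrib]
    rfl
  rw [sp]
  have hcard : (D.card : ℝ) ≤ Y := by
    have h1 : D ⊆ Icc 1 Y := fun d hd => Finset.mem_Icc.2 (hD1 d hd)
    have h2 := Finset.card_le_card h1
    rw [Nat.card_Icc] at h2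
    exact_mod_cast (by omega : D.card ≤ Y)
  -- part 1
  have p1 : 4 * (∑ m ∈ I, ∑ m' ∈ I, (if m ≡ m' [MOD e] then (1 : ℝ) else 0)) *
      (D.card : ℝ) ^ 2 ≤ 8 * Y ^ 2 * M ^ 2 / e := by
    calc _ ≤ 4 * (2 * M ^ 2 / e) * (Y : ℝ) ^ 2 := by
          apply mul_le_mul
          · linarith
          · exact pow_le_pow_left₀ (by positivity) hcard 2
          · positivity
          · positivity
      _ = _ := by ring
  -- part 2
  have p2 : (∑ m ∈ I, ∑ m' ∈ I, (if m ≡ m' [MOD e] then (1 : ℝ) else 0)) *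
        (∑ d ∈ D, ∑ d' ∈ D, (if 1 < Nat.gcd d d' then (K : ℝ) / (e * d * d') else 0)) ≤
      2 * M ^ 2 / e * (K / e * (h ^ 2 / u)) := by
    apply mul_le_mul npe
    · have r := regroup (u := u) (Y := Y) hD1 hDu (fun _ => (K : ℝ) / e) (fun _ => by positivity)
      have r1 : ∑ d ∈ D, ∑ d' ∈ D, (if 1 < Nat.gcd d d' then (K : ℝ) / (e * d * d') else 0) =
          ∑ d ∈ D, ∑ d' ∈ D, (if 1 < Nat.gcd d d' then (K : ℝ) / e / (d * d') else 0) := by
        apply Finset.sum_congr rfl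
        intro d _
        apply Finset.sum_congr rfl
        intro d' _
        split_ifs
        · rw [div_div, mul_assoc]
        · rfl
      rw [r1]
      refine r.trans ?_
      have r2 : ∑ g ∈ Ioc u Y, (K : ℝ) / e * ((1 + Real.log Y) / g) ^ 2 =
          K / e * (h ^ 2 * ∑ g ∈ Ioc u Y, (1 : ℝ) / (g : ℝ) ^ 2) := by
        rw [Finset.mul_sum, Finset.mul_sum]
        apply Finset.sum_congr rfl
        intro g _
        rw [← hh, div_pow]
        ring
      rw [r2]
      apply mul_le_mul_of_nonneg_left _ (by positivity)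
      calc h ^ 2 * ∑ g ∈ Ioc u Y, (1 : ℝ) / (g : ℝ) ^ 2 ≤ h ^ 2 * (1 / u) :=
            mul_le_mul_of_nonneg_left (sum_inv_sq u Y hu) (by positivity)
        _ = h ^ 2 / u := by ring
    · apply Finset.sum_nonneg
      intro d _
      apply Finset.sum_nonneg
      intro d' _
      split_ifs <;> positivity
    · positivity
  -- part 3
  have p3 : ∑ d ∈ D, ∑ d' ∈ D, (∑ m ∈ I, ∑ m' ∈ I, (if m ≡ m' [MOD e] then (1 : ℝ) else 0) *
        (if m ≡ m' [MOD (Nat.gcd d d')] then 1 else 0)) *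
        (if 1 < Nat.gcd d d' then (K : ℝ) * (Nat.gcd d d' : ℝ) / (e * d * d') else 0) ≤
      K * M * h ^ 2 / e * (M / (e * u) + h) := by
    have r0 : ∀ d ∈ D, ∀ d' ∈ D, (∑ m ∈ I, ∑ m' ∈ I,
        (if m ≡ m' [MOD e] then (1 : ℝ) else 0) *
        (if m ≡ m' [MOD (Nat.gcd d d')] then 1 else 0)) *
        (if 1 < Nat.gcd d d' then (K : ℝ) * (Nat.gcd d d' : ℝ) / (e * d * d') else 0) ≤
        (if 1 < Nat.gcd d d' then (K : ℝ) / e * ((Nat.gcd d d' : ℕ) : ℝ) *
          (M * (M / (e * ((Nat.gcd d d' : ℕ) : ℝ)) + 1)) / (d * d') else 0) := by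
      intro d hd d' _
      split_ifs with h4
      · have hcop : Nat.Coprime e (Nat.gcd d d') :=
          (Nat.Coprime.coprime_dvd_left (Nat.gcd_dvd_left d d') (hco d hd)).symm
        have c1 : ∑ m ∈ I, ∑ m' ∈ I, (if m ≡ m' [MOD e] then (1 : ℝ) else 0) *
            (if m ≡ m' [MOD (Nat.gcd d d')] then 1 else 0) ≤
            M * (M / (e * ((Nat.gcd d d' : ℕ) : ℝ)) + 1) := by
          have c2 := np (e * Nat.gcd d d') (Nat.mul_pos (by omega) (by omega))
          refine le_trans (le_of_eq ?_) (c2.trans (le_of_eq (by push_cast; ring)))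
          apply Finset.sum_congr rfl
          intro m _
          apply Finset.sum_congr rfl
          intro m' _
          by_cases u1 : m ≡ m' [MOD e] <;> by_cases u2 : m ≡ m' [MOD (Nat.gcd d d')]
          · rw [if_pos u1, if_pos u2, if_pos ((Nat.modEq_and_modEq_iff_modEq_mul hcop).1 ⟨u1, u2⟩)]
            ring
          · rw [if_pos u1, if_neg u2, if_neg fun hc =>
              u2 ((Nat.modEq_and_modEq_iff_modEq_mul hcop).2 hc).2]
            ring
          · rw [if_neg u1, if_neg fun hc => u1 ((Nat.modEq_and_modEq_iff_modEq_mul hcop).2 hc).1]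
            ring
          · rw [if_neg u1, if_neg fun hc => u1 ((Nat.modEq_and_modEq_iff_modEq_mul hcop).2 hc).1]
            ring
        have hd0 : (0 : ℝ) < d := by exact_mod_cast (hD1 d hd).1
        calc _ ≤ (M * (M / (e * ((Nat.gcd d d' : ℕ) : ℝ)) + 1)) *
              ((K : ℝ) * (Nat.gcd d d' : ℝ) / (e * d * d')) :=
              mul_le_mul_of_nonneg_right c1 (by positivity)
          _ = _ := by
              rw [show (e : ℝ) * d * d' = e * (d * d') by ring, ← div_div]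
              ring
      · rw [mul_zero]
    refine (Finset.sum_le_sum fun d hd => Finset.sum_le_sum fun d' hd' => r0 d hd d' hd').trans ?_
    have r := regroup (u := u) (Y := Y) hD1 hDu
      (fun g => (K : ℝ) / e * (g : ℝ) * (M * (M / (e * (g : ℝ)) + 1))) (fun _ => by positivity)
    refine r.trans ?_
    have r2 : ∑ g ∈ Ioc u Y, (K : ℝ) / e * (g : ℝ) * (M * (M / (e * (g : ℝ)) + 1)) *
        ((1 + Real.log Y) / g) ^ 2 =
        K * M * h ^ 2 / e * (M / e * (∑ g ∈ Ioc u Y, (1 : ℝ) / (g : ℝ) ^ 2) +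
          ∑ g ∈ Ioc u Y, (1 : ℝ) / (g : ℝ)) := by
      rw [Finset.mul_sum, ← Finset.sum_add_distrib, Finset.mul_sum]
      apply Finset.sum_congr rfl
      intro g hg
      rw [Finset.mem_Ioc] at hg
      have hg0 : (g : ℝ) ≠ 0 := by
        have : 0 < g := by omega
        positivity
      rw [← hh]
      field_simp
    rw [r2]
    apply mul_le_mul_of_nonneg_left _ (by positivity)
    apply add_le_add
    · calc (M : ℝ) / e * ∑ g ∈ Ioc u Y, (1 : ℝ) / (g : ℝ) ^ 2 ≤ M / e * (1 / u) :=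
            mul_le_mul_of_nonneg_left (sum_inv_sq u Y hu) (by positivity)
        _ = M / (e * u) := by field_simp
    · exact sum_inv u Y
  -- total
  have hh2 : h ^ 2 ≤ h ^ 3 := pow_le_pow_right₀ hh1 (by norm_num)
  have t1 : 2 * (M : ℝ) ^ 2 / e * (K / e * (h ^ 2 / u)) + K * M * h ^ 2 / e * (M / (e * u) + h) ≤
      10 * K * M ^ 2 * h ^ 3 * (1 / (e ^ 2 * u) + 1 / (e * M)) := by
    have e1 : 2 * (M : ℝ) ^ 2 / e * (K / e * (h ^ 2 / u)) + K * M * h ^ 2 / e * (M / (e * u) + h) =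
        3 * (K * M ^ 2 / (e ^ 2 * u)) * h ^ 2 + (K * M / e) * h ^ 3 := by
      field_simp
      ring
    have e2 : 10 * (K : ℝ) * M ^ 2 * h ^ 3 * (1 / (e ^ 2 * u) + 1 / (e * M)) =
        10 * (K * M ^ 2 / (e ^ 2 * u)) * h ^ 3 + 10 * (K * M / e) * h ^ 3 := by
      field_simp
    rw [e1, e2]
    have e3 : 3 * ((K : ℝ) * M ^ 2 / (e ^ 2 * u)) * h ^ 2 ≤
        10 * (K * M ^ 2 / (e ^ 2 * u)) * h ^ 3 := by
      apply mul_le_mul _ hh2 (by positivity) (by positivity)
      apply mul_le_mul_of_nonneg_right (by norm_num) (by positivity)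
    have e4 : ((K : ℝ) * M / e) * h ^ 3 ≤ 10 * (K * M / e) * h ^ 3 := by
      apply mul_le_mul_of_nonneg_right _ (by positivity)
      have : (0 : ℝ) ≤ K * M / e := by positivity
      linarith
    linarith
  have t2 : 8 * (Y : ℝ) ^ 2 * M ^ 2 / e ≤ 10 * Y ^ 2 * M ^ 2 / e := by
    apply div_le_div_of_nonneg_right _ (by linarith)
    have : (0 : ℝ) ≤ Y ^ 2 * M ^ 2 := by positivity
    nlinarith
  linarith

end Pool.Agent.Helper5.Tot
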